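import Mathlib
import Pool.Agent.W702.CoHopf.Ext

/-!
A group that is not co-hopfian but has a co-hopfian subgroup of index two.

The group is `S_3 × Z_(2)`, where `Z_(2)` is the additive group of rationals with odd denominator,
and the subgroup consists of the pairs `(p, x)` such that the sign of `p` is the parity of `x`.
-/

namespace Pool.Agent.Results.MP_ce3880_al.FiniteIndexExtension

open Pool.Agent.W702.CoHopf

/-- There is a group `G` with an injective endomorphism that is not surjective, and a subgroup `H`
of index two, each of whose injective endomorphisms is surjective. -/
theorem result : ∃ (G : Type) (_ : Group G) (H : Subgroup G),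
    H.index = 2 ∧
    (∀ f : H →* H, Function.Injective f → Function.Surjective f) ∧
    ∃ f : G →* G, Function.Injective f ∧ ¬ Function.Surjective f := by
  refine ⟨Ext.G2, inferInstance, Ext.H2, Ext.index_H2, Ext.coHopfian_H2, ?_⟩
  have h := Ext.not_coHopfian_G2
  unfold CoHopfian at h
  push Not at h
  exact h

end Pool.Agent.Results.MP_ce3880_al.FiniteIndexExtension
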