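import Mathlib
import Pool.Agent.W702.CoHopf.Main
import Pool.Agent.W702.CoHopf.Pres

/-!
A finitely presented co-hopfian group with a subgroup of index two that is not co-hopfian.

The group is `(C_3 * C_5) ⋊ C_2`, where `C_2` inverts both free factors, and the subgroup is
`C_3 * C_5`.
-/

namespace Pool.Agent.Results.MP_ce3880_al.FiniteIndexSubgroup

open Pool.Agent.W702.CoHopf

theorem fg_of_fp (G : Type) [Group G] (h : Group.IsFinitelyPresented G) : Group.FG G := by
  obtain ⟨n, φ, hφ, -⟩ := h.out
  exact Group.fg_of_surjective hφ

/-- There is a finitely presented (hence finitely generated) group `G`, each of whose injective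
endomorphisms is surjective, with a subgroup `H` of index two that has an injective endomorphism
which is not surjective. -/
theorem result : ∃ (G : Type) (_ : Group G) (H : Subgroup G),
    Group.IsFinitelyPresented G ∧ Group.FG G ∧ H.index = 2 ∧
    (∀ f : G →* G, Function.Injective f → Function.Surjective f) ∧
    ∃ f : H →* H, Function.Injective f ∧ ¬ Function.Surjective f := by
  refine ⟨Pool.Agent.W702.CoHopf.G, inferInstance, Pool.Agent.W702.CoHopf.H, fp_G,
    fg_of_fp _ fp_G, index_H, coHopfian_G, ?_⟩
  have h := not_coHopfian_H
  unfold CoHopfian at h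
  push Not at h
  exact h

end Pool.Agent.Results.MP_ce3880_al.FiniteIndexSubgroup
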